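import Mathlib
import Pool.Agent.W516.KU.Defs
import Pool.Agent.W308.DK.CAS

/-!
# Project KU: the Casimir argument for Lie algebras commuting with a complex structure
-/

set_option autoImplicit false

namespace Pool.Agent.W583.KU

open Module
open Pool.Agent.W516.K3 (NoRe S_NT)
open Pool.Agent.W516.KU (GoodJ Herm)
open Pool.Agent.W308.DK.CAS

section

variable {T : Type} [AddCommGroup T] [Module ℝ T]

theorem skewJ {b : Fm T} {J : Module.End ℝ T} (h : Herm b J) (u v : T) :
    b (J u) v = - b u (J v) := by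
  have h1 := h.isom u (J v)
  have h2 : J (J v) = -v := by
    have h3 := congrArg (fun f : Module.End ℝ T => f v) h.sq
    exact h3
  rw [h2, map_neg] at h1
  linarith

theorem JJ {b : Fm T} {J : Module.End ℝ T} (h : Herm b J) (v : T) : J (J v) = -v :=
  congrArg (fun f : Module.End ℝ T => f v) h.sq

/-- Self-adjoint operators in the commutant are scalars. -/
theorem selfadj {b : Fm T} {J : Module.End ℝ T} (h : Herm b J) (hb : b ≠ 0) {c d : ℝ}
    {z : Module.End ℝ T} (hz : z = c • 1 + d • J) (hs : ∀ u v, b (z u) v = b u (z v)) :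
    z = c • 1 := by
  have hd : d = 0 := by
    by_contra hd
    apply hb
    refine LinearMap.ext₂ fun u v => ?_
    have h1 := hs u (J v)
    rw [hz] at h1
    simp only [LinearMap.add_apply, LinearMap.smul_apply, Module.End.one_apply, map_add, map_smul,
      smul_eq_mul] at h1
    rw [JJ h v, map_neg, h.isom] at h1
    have h2 : d * b u v = 0 := by linarith
    rw [LinearMap.zero_apply, LinearMap.zero_apply]
    exact (mul_eq_zero.mp h2).resolve_left hd
  rw [hz, hd, zero_smul, add_zero]

theorem rho_cube {b : Fm T} {J : Module.End ℝ T} (h : Herm b J) (k : Fm T) :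
    rho J (rho J (rho J k)) = (-4 : ℝ) • rho J k := by
  refine LinearMap.ext₂ fun u v => ?_
  rw [LinearMap.smul_apply, LinearMap.smul_apply, smul_eq_mul]
  simp only [rho_apply, JJ h, map_neg, LinearMap.neg_apply]
  ring

end

section

variable {V : Type} [AddCommGroup V] [Module ℝ V]

/-- A nilpotent endomorphism with `N ^ 3 = - 4 N` is zero. -/
theorem nil_cube (N : Module.End ℝ V) (hN : IsNilpotent N) (h : N * (N * N) = (-4 : ℝ) • N) :
    N = 0 := by
  have key : ∀ k : ℕ, ∃ c : ℝ, N = c • N ^ (2 * k + 1) := by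
    intro k
    induction k with
    | zero => exact ⟨1, by rw [one_smul, mul_zero, zero_add, pow_one]⟩
    | succ k ih =>
      obtain ⟨c, hc⟩ := ih
      refine ⟨c * (-4 : ℝ)⁻¹, ?_⟩
      have h1 : N = (-4 : ℝ)⁻¹ • (N * (N * N)) := by
        rw [h, smul_smul, inv_mul_cancel₀ (by norm_num), one_smul]
      have h2 : N ^ (2 * k + 1) = (-4 : ℝ)⁻¹ • N ^ (2 * (k + 1) + 1) := by
        have e1 : N ^ (2 * k + 1) = N ^ (2 * k) * N := pow_succ _ _
        have e2 : N ^ (2 * (k + 1) + 1) = N ^ (2 * k) * (N * (N * N)) := by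
          rw [show 2 * (k + 1) + 1 = 2 * k + 3 by ring, pow_add]
          congr 1
        rw [e1, e2, ← mul_smul_comm, ← h1]
      conv_lhs => rw [hc, h2]
      rw [smul_smul]
  obtain ⟨n, hn⟩ := hN
  obtain ⟨c, hc⟩ := key n
  rw [hc, show 2 * n + 1 = n + (n + 1) by ring, pow_add, hn, zero_mul, smul_zero]

end

section

variable {T : Type} [AddCommGroup T] [Module ℝ T] [FiniteDimensional ℝ T]

theorem fr_ne {b : Fm T} (hb : b ≠ 0) : (finrank ℝ T : ℝ) ≠ 0 := by
  intro h0
  have h1 : finrank ℝ T = 0 := by exact_mod_cast h0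
  have : Subsingleton T := finrank_zero_iff.mp h1
  apply hb
  refine LinearMap.ext₂ fun u v => ?_
  rw [Subsingleton.elim u 0, map_zero]
  rfl

/-- A good Lie algebra is perfect up to multiples of `J`. -/
theorem perfect' {b : Fm T} {J : Module.End ℝ T} {g : Submodule ℝ (Module.End ℝ T)}
    (hg : GoodJ b J g) (hb : b ≠ 0)
    {m : ℕ} {x : Fin m → Module.End ℝ T} (hx : ∀ i, x i ∈ g)
    (hex : ∀ y ∈ g, y = ∑ i, (-LinearMap.trace ℝ T (y * x i)) • x i) :
    g ≤ Submodule.span ℝ {Z | ∃ X ∈ g, ∃ Y ∈ g, Z = X * Y - Y * X} ⊔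
      Submodule.span ℝ {J} := by
  intro y0 hy0
  by_contra hcon
  obtain ⟨f, hf1, hf2⟩ := Submodule.exists_le_ker_of_notMem hcon
  set z : Module.End ℝ T := ∑ i, f (x i) • x i with hz
  have hzg : z ∈ g := Submodule.sum_mem _ fun i _ => g.smul_mem _ (hx i)
  have htr : ∀ y ∈ g, LinearMap.trace ℝ T (z * y) = - f y := by
    intro y hy
    have h1 : f y = ∑ i, (-LinearMap.trace ℝ T (y * x i)) * f (x i) := by
      conv_lhs => rw [hex y hy]
      rw [map_sum]
      apply Finset.sum_congr rfl
      intro i _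
      rw [map_smul, smul_eq_mul]
    rw [h1, hz, Finset.sum_mul, map_sum, ← Finset.sum_neg_distrib]
    apply Finset.sum_congr rfl
    intro i _
    rw [smul_mul_assoc, map_smul, smul_eq_mul, tr_comm (x i) y]
    ring
  have hcomm : ∀ a ∈ g, a * z = z * a := by
    intro a ha
    have h1 : z * a - a * z = 0 := by
      apply hg.trace _ (hg.bracket z hzg a ha)
      intro y hy
      have h2 := htr _ (hg.bracket a ha y hy)
      have h3 : f (a * y - y * a) = 0 := by
        have : a * y - y * a ∈ LinearMap.ker f :=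
          hf2 (Submodule.mem_sup_left (Submodule.subset_span ⟨a, ha, y, hy, rfl⟩))
        exact this
      rw [h3, neg_zero] at h2
      rw [mul_sub, map_sub] at h2
      rw [sub_mul, map_sub]
      have e1 : LinearMap.trace ℝ T (a * z * y) = LinearMap.trace ℝ T (z * (y * a)) := by
        rw [mul_assoc, tr_comm, mul_assoc]
      rw [e1, mul_assoc]
      exact h2
    exact (sub_eq_zero.mp h1).symm
  obtain ⟨c, d, hc⟩ := hg.comm z hcomm
  have hc0 : c = 0 := by
    by_contra hc0
    apply hb
    refine LinearMap.ext₂ fun u v => ?_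
    have h1 := hg.skew z hzg u v
    rw [hc] at h1
    simp only [LinearMap.add_apply, LinearMap.smul_apply, Module.End.one_apply, map_add, map_smul,
      smul_eq_mul] at h1
    rw [skewJ hg.herm u v] at h1
    have h2 : c * b u v = 0 := by linarith
    rw [LinearMap.zero_apply, LinearMap.zero_apply]
    exact (mul_eq_zero.mp h2).resolve_left hc0
  have hfJ : f J = 0 := by
    have : J ∈ LinearMap.ker f :=
      hf2 (Submodule.mem_sup_right (Submodule.subset_span rfl))
    exact this
  rw [hc0, zero_smul, zero_add] at hc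
  have hz0 : z = 0 := by
    have h1 := htr z hzg
    have h2 : f z = 0 := by rw [hc, map_smul, hfJ, smul_zero]
    rw [h2, neg_zero, hc] at h1
    have h3 : (d • J) * (d • J) = (-(d * d)) • (1 : Module.End ℝ T) := by
      rw [smul_mul_assoc, mul_smul_comm, hg.herm.sq, smul_smul, smul_neg, neg_smul]
    rw [h3, map_smul, LinearMap.trace_one, smul_eq_mul] at h1
    have h4 := (mul_eq_zero.mp h1).resolve_right (fr_ne hb)
    have h5 : d = 0 := by
      have : d * d = 0 := by linarith
      exact mul_self_eq_zero.mp this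
    rw [hc, h5, zero_smul]
  have h4 := htr y0 hy0
  rw [hz0, zero_mul, map_zero] at h4
  exact hf1 (by linarith)

/-- The main step, for a general representation. -/
theorem core' (hNT : S_NT) {M : Type} [AddCommGroup M] [Module ℝ M] [FiniteDimensional ℝ M]
    {m : ℕ} {g : Submodule ℝ (Module.End ℝ T)} {x : Fin m → Module.End ℝ T}
    {J : Module.End ℝ T}
    (hbr : ∀ x ∈ g, ∀ y ∈ g, x * y - y * x ∈ g) (hx : ∀ i, x i ∈ g)
    (hJ : ∀ x ∈ g, x * J = J * x)
    (hex : ∀ y ∈ g, y = ∑ i, (-LinearMap.trace ℝ T (y * x i)) • x i)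
    (hperf : g ≤ Submodule.span ℝ {Z | ∃ X ∈ g, ∃ Y ∈ g, Z = X * Y - Y * X} ⊔
      Submodule.span ℝ {J})
    (ρ : Module.End ℝ T →ₗ[ℝ] Module.End ℝ M)
    (hρ : ∀ a a', ρ (a * a' - a' * a) = ρ a * ρ a' - ρ a' * ρ a)
    (hρJ : ∀ w, ρ J (ρ J (ρ J w)) = (-4 : ℝ) • ρ J w)
    (hre : ∀ a ∈ g, NoRe (ρ a)) (θ : ℝ) (hθ : 0 ≤ θ) (w : M)
    (hw : ∑ i, ρ (x i) (ρ (x i) w) = θ • w) : ∀ y ∈ g, ρ y w = 0 := by
  classical
  set Ω : Module.End ℝ M := ∑ i, ρ (x i) * ρ (x i) with hΩ
  have hcomm : ∀ y ∈ g, ρ y * Ω = Ω * ρ y := by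
    intro y hy
    have h1 := casimir hbr hx hex ((LinearMap.mul ℝ (Module.End ℝ M)).compl₁₂ ρ ρ) hy
    have h2 : ∀ i, ((LinearMap.mul ℝ (Module.End ℝ M)).compl₁₂ ρ ρ) (y * x i - x i * y) (x i) +
        ((LinearMap.mul ℝ (Module.End ℝ M)).compl₁₂ ρ ρ) (x i) (y * x i - x i * y) =
        ρ y * (ρ (x i) * ρ (x i)) - (ρ (x i) * ρ (x i)) * ρ y := by
      intro i
      simp only [LinearMap.compl₁₂_apply, LinearMap.mul_apply', hρ]
      noncomm_ring
    rw [Finset.sum_congr rfl (fun i _ => h2 i), Finset.sum_sub_distrib, ← Finset.mul_sum,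
      ← Finset.sum_mul] at h1
    exact sub_eq_zero.mp h1
  let W : Submodule ℝ M := Module.End.eigenspace Ω θ
  have hst : ∀ y : g, ∀ u ∈ W, ρ y.1 u ∈ W := by
    intro y u hu
    rw [Module.End.mem_eigenspace_iff] at hu ⊢
    have h1 := congrArg (fun f : Module.End ℝ M => f u) (hcomm y.1 y.2)
    simp only [Module.End.mul_apply] at h1
    rw [← h1, hu, map_smul]
  let r : g →ₗ[ℝ] Module.End ℝ W :=
    { toFun := fun y => (ρ y.1).restrict (hst y)
      map_add' := by
        intro y y'
        ext u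
        simp [LinearMap.restrict_apply]
      map_smul' := by
        intro a y
        ext u
        simp [LinearMap.restrict_apply] }
  have hr : ∀ (y : g) (u : W), ((r y u : W) : M) = ρ y.1 u := fun y u => rfl
  have hrre : ∀ y : g, NoRe (r y) := by
    intro y a c ha v hv
    apply Subtype.ext
    apply hre y.1 y.2 a c ha v.1
    have := congrArg Subtype.val hv
    simpa [hr] using this
  have htr : ∀ y : g, LinearMap.trace ℝ W (r y * r y) ≤ 0 := fun y => (hNT.1 W (r y) (hrre y)).1
  have hsum : ∑ i, LinearMap.trace ℝ W (r ⟨x i, hx i⟩ * r ⟨x i, hx i⟩) = θ * finrank ℝ W := by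
    rw [← map_sum]
    have h1 : ∑ i, r ⟨x i, hx i⟩ * r ⟨x i, hx i⟩ = θ • (1 : Module.End ℝ W) := by
      ext u
      have hu : Ω u.1 = θ • u.1 := Module.End.mem_eigenspace_iff.mp u.2
      rw [LinearMap.sum_apply, Submodule.coe_sum]
      simp only [Module.End.mul_apply, hr, LinearMap.smul_apply, Module.End.one_apply,
        Submodule.coe_smul]
      rw [← hu, hΩ, LinearMap.sum_apply]
      rfl
    rw [h1, map_smul, LinearMap.trace_one, smul_eq_mul]
  have hzero : ∀ i, LinearMap.trace ℝ W (r ⟨x i, hx i⟩ * r ⟨x i, hx i⟩) = 0 := by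
    have h0 : ∑ i, LinearMap.trace ℝ W (r ⟨x i, hx i⟩ * r ⟨x i, hx i⟩) = 0 := by
      apply le_antisymm
      · exact Finset.sum_nonpos fun i _ => htr _
      · rw [hsum]
        positivity
    intro i
    exact (Finset.sum_eq_zero_iff_of_nonpos (fun i _ => htr _)).mp h0 i (Finset.mem_univ i)
  have hB : ∀ (i : Fin m) (y : g), LinearMap.trace ℝ W (r ⟨x i, hx i⟩ * r y) = 0 := by
    intro i y
    have hq : ∀ t : ℝ, t * (2 * LinearMap.trace ℝ W (r ⟨x i, hx i⟩ * r y)) +
        t * t * LinearMap.trace ℝ W (r y * r y) +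
          LinearMap.trace ℝ W (r ⟨x i, hx i⟩ * r ⟨x i, hx i⟩) ≤ 0 := by
      intro t
      have h3 := htr (⟨x i, hx i⟩ + t • y)
      have h4 : r (⟨x i, hx i⟩ + t • y) * r (⟨x i, hx i⟩ + t • y) =
          r ⟨x i, hx i⟩ * r ⟨x i, hx i⟩ + t • (r ⟨x i, hx i⟩ * r y) +
            t • (r y * r ⟨x i, hx i⟩) + (t * t) • (r y * r y) := by
        simp only [map_add, map_smul, add_mul, mul_add, smul_mul_assoc, mul_smul_comm, smul_add]
        rw [← smul_smul]
        abel
      rw [h4] at h3
      simp only [map_add, map_smul, smul_eq_mul] at h3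
      rw [tr_comm (r y) (r ⟨x i, hx i⟩)] at h3
      linarith
    exact lin_zero hq (hzero i)
  have hnil : ∀ y : g, IsNilpotent (r y) := by
    intro y
    apply (hNT.1 W (r y) (hrre y)).2
    have h1 : y = ∑ i, (-LinearMap.trace ℝ T (y.1 * x i)) • (⟨x i, hx i⟩ : g) := by
      apply Subtype.ext
      rw [Submodule.coe_sum]
      exact hex y.1 y.2
    have h2 : r y = ∑ i, (-LinearMap.trace ℝ T (y.1 * x i)) • r ⟨x i, hx i⟩ := by
      conv_lhs => rw [h1]
      rw [map_sum]
      apply Finset.sum_congr rfl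
      intro i _
      rw [map_smul]
    conv_lhs => rw [h2]
    rw [Finset.sum_mul, map_sum]
    apply Finset.sum_eq_zero
    intro i _
    rw [smul_mul_assoc, map_smul]
    have h3 := hB i y
    rw [h2] at h3
    rw [h3, smul_zero]
  have hrb : ∀ y y' : g, r y * r y' - r y' * r y =
      r ⟨y.1 * y'.1 - y'.1 * y.1, hbr y.1 y.2 y'.1 y'.2⟩ := by
    intro y y'
    ext u
    rw [hr, hρ]
    rfl
  -- the derived algebra
  let D : Submodule ℝ (Module.End ℝ T) :=
    Submodule.span ℝ {Z | ∃ X ∈ g, ∃ Y ∈ g, Z = X * Y - Y * X}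
  have hD : D ≤ g := by
    rw [Submodule.span_le]
    rintro Z ⟨X, hX, Y, hY, rfl⟩
    exact hbr X hX Y hY
  have hdec : ∀ y ∈ g, ∃ y' ∈ D, ∃ a : ℝ, y = y' + a • J := by
    intro y hy
    obtain ⟨y', hy', j, hj, h1⟩ := Submodule.mem_sup.mp (hperf hy)
    obtain ⟨a, ha⟩ := Submodule.mem_span_singleton.mp hj
    exact ⟨y', hy', a, by rw [ha, h1]⟩
  have hDbr : ∀ X ∈ g, ∀ Y ∈ g, ∃ X' ∈ D, ∃ Y' ∈ D, X * Y - Y * X = X' * Y' - Y' * X' := by
    intro X hX Y hY
    obtain ⟨X', hX', a, ha⟩ := hdec X hX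
    obtain ⟨Y', hY', a', ha'⟩ := hdec Y hY
    refine ⟨X', hX', Y', hY', ?_⟩
    have e1 := hJ X' (hD hX')
    have e2 := hJ Y' (hD hY')
    rw [ha, ha']
    simp only [add_mul, mul_add, smul_mul_assoc, mul_smul_comm, e1, e2]
    module
  let 𝔰 : Submodule ℝ (Module.End ℝ W) := (D.comap g.subtype).map r
  have hmem : ∀ (z : Module.End ℝ T) (_ : z ∈ D) (hz' : z ∈ g), r ⟨z, hz'⟩ ∈ 𝔰 := by
    intro z hz hz'
    exact ⟨⟨z, hz'⟩, hz, rfl⟩
  have hfin := engel_perfect 𝔰 (by
      rintro _ ⟨y, hy, rfl⟩ _ ⟨y', hy', rfl⟩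
      rw [hrb]
      exact hmem _ (Submodule.subset_span ⟨y.1, y.2, y'.1, y'.2, rfl⟩) _) (by
      rintro _ ⟨y, _, rfl⟩
      exact hnil y) (by
      rintro _ ⟨y, hy, rfl⟩
      have key : ∀ z ∈ D, ∀ hz : z ∈ g, r ⟨z, hz⟩ ∈ Submodule.span ℝ
            {Z | ∃ X ∈ 𝔰, ∃ Y ∈ 𝔰, Z = X * Y - Y * X} := by
        intro z hz
        induction hz using Submodule.span_induction with
        | mem z hz =>
          obtain ⟨X, hX, Y, hY, rfl⟩ := hz
          intro hz
          obtain ⟨X', hX', Y', hY', h1⟩ := hDbr X hX Y hY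
          apply Submodule.subset_span
          refine ⟨r ⟨X', hD hX'⟩, hmem _ hX' _, r ⟨Y', hD hY'⟩, hmem _ hY' _, ?_⟩
          rw [hrb]
          congr 1
          exact Subtype.ext h1
        | zero =>
          intro hz
          have : (⟨0, hz⟩ : g) = 0 := rfl
          rw [this, map_zero]
          exact zero_mem _
        | add a a' ha ha' iha iha' =>
          intro hz
          have : (⟨a + a', hz⟩ : g) = ⟨a, hD ha⟩ + ⟨a', hD ha'⟩ := rfl
          rw [this, map_add]
          exact add_mem (iha _) (iha' _)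
        | smul c a ha iha =>
          intro hz
          have : (⟨c • a, hz⟩ : g) = c • ⟨a, hD ha⟩ := rfl
          rw [this, map_smul]
          exact Submodule.smul_mem _ c (iha _)
      exact key y.1 hy y.2)
  have hrD : ∀ (z : Module.End ℝ T) (hz : z ∈ D), r ⟨z, hD hz⟩ = 0 := fun z hz =>
    hfin _ (hmem z hz _)
  have hrJ : ∀ hJg : J ∈ g, r ⟨J, hJg⟩ = 0 := by
    intro hJg
    apply nil_cube _ (hnil _)
    ext u
    have h1 := hρJ u.1
    simp only [Module.End.mul_apply, hr, LinearMap.smul_apply, Submodule.coe_smul]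
    exact h1
  have hall : ∀ y : g, r y = 0 := by
    intro y
    obtain ⟨y', hy', a, ha⟩ := hdec y.1 y.2
    by_cases ha0 : a = 0
    · have h1 : y = ⟨y', hD hy'⟩ := by
        apply Subtype.ext
        rw [ha, ha0, zero_smul, add_zero]
      rw [h1, hrD y' hy']
    · have hJg : J ∈ g := by
        have h2 : a • J ∈ g := by
          have h3 := g.sub_mem y.2 (hD hy')
          rwa [ha, add_sub_cancel_left] at h3
        have h4 := g.smul_mem a⁻¹ h2
        rwa [smul_smul, inv_mul_cancel₀ ha0, one_smul] at h4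
      have h1 : y = ⟨y', hD hy'⟩ + a • ⟨J, hJg⟩ := by
        apply Subtype.ext
        exact ha
      rw [h1, map_add, map_smul, hrD y' hy', hrJ hJg, smul_zero, add_zero]
  intro y hy
  have hwW : w ∈ W := by
    rw [Module.End.mem_eigenspace_iff, hΩ, LinearMap.sum_apply]
    exact hw
  have h1 := hall ⟨y, hy⟩
  have h2 := congrArg (fun f : Module.End ℝ W => ((f ⟨w, hwW⟩ : W) : M)) h1
  exact h2

/-- If all elements have purely imaginary eigenvalues, then the Casimir element gives the
hypotheses of the Perron-Frobenius argument. -/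
theorem T_CAS' (hNT : S_NT) : Pool.Agent.W516.KU.S_CAS := by
  classical
  intro T _ _ _ b J g hg hb hre _
  obtain ⟨m, x, hx, -, hex⟩ := exists_basis g (fun x hx => (hNT.1 T x (hre x hx)).1) hg.trace
  have hn : (finrank ℝ T : ℝ) ≠ 0 := fr_ne hb
  have hnd := hg.herm.nondeg
  set Ω : Module.End ℝ T := ∑ i, x i * x i with hΩ
  have hΩc : ∀ y ∈ g, y * Ω = Ω * y := by
    intro y hy
    have h1 := casimir hg.bracket hx hex (LinearMap.mul ℝ (Module.End ℝ T)) hy
    have h2 : ∀ i, (LinearMap.mul ℝ (Module.End ℝ T)) (y * x i - x i * y) (x i) +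
        (LinearMap.mul ℝ (Module.End ℝ T)) (x i) (y * x i - x i * y) =
        y * (x i * x i) - (x i * x i) * y := by
      intro i
      simp only [LinearMap.mul_apply']
      noncomm_ring
    rw [Finset.sum_congr rfl (fun i _ => h2 i), Finset.sum_sub_distrib, ← Finset.mul_sum,
      ← Finset.sum_mul] at h1
    exact sub_eq_zero.mp h1
  obtain ⟨c, d, hcd⟩ := hg.comm Ω hΩc
  have hc : Ω = c • 1 := by
    refine selfadj hg.herm hb hcd ?_
    intro u v
    have e1 : b (Ω u) v = ∑ i, b (x i (x i u)) v := by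
      rw [hΩ, LinearMap.sum_apply, map_sum, LinearMap.sum_apply]
      rfl
    have e2 : b u (Ω v) = ∑ i, b u (x i (x i v)) := by
      rw [hΩ, LinearMap.sum_apply, map_sum]
      rfl
    rw [e1, e2]
    apply Finset.sum_congr rfl
    intro i _
    have h1 := hg.skew (x i) (hx i) (x i u) v
    have h2 := hg.skew (x i) (hx i) u (x i v)
    linarith
  have hΩu : ∀ u, ∑ i, x i (x i u) = c • u := by
    intro u
    have h1 := congrArg (fun f : Module.End ℝ T => f u) hc
    rw [hΩ] at h1
    simp only [LinearMap.sum_apply, Module.End.mul_apply, LinearMap.smul_apply,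
      Module.End.one_apply] at h1
    exact h1
  have hΦ : ∀ (h : Fm T) (u v : T), (∑ i, phi1 (x i)) h u v = ∑ i, h (x i u) (x i v) := by
    intro h u v
    rw [LinearMap.sum_apply, LinearMap.sum_apply, LinearMap.sum_apply]
    rfl
  refine ⟨Fin m, inferInstance, x, ∑ i, phi1 (x i), -c, kap b hnd, hΦ, ?_, ?_, ?_, ?_⟩
  · refine LinearMap.ext₂ fun u v => ?_
    rw [hΦ, LinearMap.smul_apply, LinearMap.smul_apply, smul_eq_mul]
    have h1 : ∀ i, b (x i u) (x i v) = - b (x i (x i u)) v := by
      intro i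
      have := hg.skew (x i) (hx i) (x i u) v
      linarith
    rw [Finset.sum_congr rfl (fun i _ => h1 i), Finset.sum_neg_distrib]
    have h2 : ∑ i, b (x i (x i u)) v = b (∑ i, x i (x i u)) v := by
      rw [map_sum, LinearMap.sum_apply]
    rw [h2, hΩu, map_smul, LinearMap.smul_apply, smul_eq_mul]
    ring
  · have h1 : opP b hnd b = 1 := opP_unique _ _ _ _ fun u v => rfl
    rw [kap_apply, h1, LinearMap.trace_one, inv_mul_cancel₀ hn]
  · intro h
    have h1 : opP b hnd ((∑ i, phi1 (x i)) h) = - ∑ i, x i * opP b hnd h * x i := by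
      apply opP_unique
      intro u v
      rw [hΦ, LinearMap.neg_apply, LinearMap.sum_apply, map_neg, LinearMap.neg_apply, map_sum,
        LinearMap.sum_apply, ← Finset.sum_neg_distrib]
      apply Finset.sum_congr rfl
      intro i _
      rw [Module.End.mul_apply, Module.End.mul_apply]
      have h2 := hg.skew (x i) (hx i) (opP b hnd h (x i u)) v
      rw [opP_spec] at h2
      linarith
    rw [kap_apply, kap_apply, h1, map_neg, map_sum]
    have h3 : ∀ i, LinearMap.trace ℝ T (x i * opP b hnd h * x i) =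
        LinearMap.trace ℝ T (opP b hnd h * (x i * x i)) := by
      intro i
      rw [mul_assoc, tr_comm, mul_assoc]
    rw [Finset.sum_congr rfl (fun i _ => h3 i), ← map_sum, ← Finset.mul_sum, ← hΩ, hc,
      mul_smul_comm, mul_one, map_smul, smul_eq_mul]
    ring
  · intro h θ hsym hθ hh
    have hperf := perfect' hg hb hx hex
    have h1 : ∀ y ∈ g, rho y h = 0 := by
      have := core' hNT (M := T →ₗ[ℝ] T →ₗ[ℝ] ℝ) hg.bracket hx hg.commJ hex hperf rhoL
        (by
          intro a a'
          refine LinearMap.ext fun h => ?_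
          exact rho_bracket a a' h)
        (by
          intro k
          exact rho_cube hg.herm k)
        (by
          intro a ha
          exact hNT.2 T a (rho a) (fun h u v => rho_apply a h u v) (hre a ha))
        (2 * (θ + c)) (by linarith) h
        (by
          refine LinearMap.ext₂ fun u v => ?_
          have e0 : ∀ i, rho (x i) (rho (x i) h) u v =
              h (x i (x i u)) v + 2 * h (x i u) (x i v) + h u (x i (x i v)) := by
            intro i
            rw [rho_apply, rho_apply, rho_apply]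
            ring
          have e1 : ∑ i, h (x i (x i u)) v = c * h u v := by
            have : ∑ i, h (x i (x i u)) v = h (∑ i, x i (x i u)) v := by
              rw [map_sum, LinearMap.sum_apply]
            rw [this, hΩu, map_smul, LinearMap.smul_apply, smul_eq_mul]
          have e2 : ∑ i, h u (x i (x i v)) = c * h u v := by
            rw [← map_sum, hΩu, map_smul, smul_eq_mul]
          have e3 : ∑ i, h (x i u) (x i v) = θ * h u v := by
            rw [← hΦ, hh]
            rfl
          have e4 : (∑ i, rho (x i) (rho (x i) h)) u v =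
              ∑ i, rho (x i) (rho (x i) h) u v := by
            rw [LinearMap.sum_apply, LinearMap.sum_apply]
          have e5 : (∑ i, rho (x i) (rho (x i) h)) u v = (2 * (θ + c)) * h u v := by
            rw [e4, Finset.sum_congr rfl (fun i _ => e0 i), Finset.sum_add_distrib,
              Finset.sum_add_distrib, ← Finset.mul_sum, e1, e2, e3]
            ring
          exact e5)
      exact this
    have h2 : ∀ y ∈ g, y * opP b hnd h = opP b hnd h * y := by
      intro y hy
      ext u
      have h3 : y (opP b hnd h u) - opP b hnd h (y u) = 0 := by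
        apply hnd
        intro v
        rw [map_sub, LinearMap.sub_apply, opP_spec]
        have h4 := hg.skew y hy (opP b hnd h u) v
        rw [opP_spec] at h4
        have h5 : rho y h u v = 0 := by rw [h1 y hy]; rfl
        rw [rho_apply] at h5
        linarith
      exact sub_eq_zero.mp h3
    obtain ⟨c', d', hcd'⟩ := hg.comm _ h2
    have hc' : opP b hnd h = c' • 1 := by
      refine selfadj hg.herm hb hcd' ?_
      intro u v
      rw [opP_spec, hsym, hg.herm.symm u, opP_spec]
    refine ⟨c', ?_⟩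
    refine LinearMap.ext₂ fun u v => ?_
    rw [← opP_spec b hnd h u v, hc']
    simp only [LinearMap.smul_apply, Module.End.one_apply, map_smul]

end

end Pool.Agent.W583.KU

namespace Pool.Agent.W583.KU

/-- The statement for the project. -/
theorem T_CAS : Pool.Agent.W516.K3.S_SUM → Pool.Agent.W516.K3.S_NT →
    Pool.Agent.W516.KU.S_CAS := fun _ h => T_CAS' h

end Pool.Agent.W583.KU
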